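import Pool.Agent.MP_13e7a1_an.H19.SmoothKey

/-!
Variance-corrected mollification of an almost plurisubharmonic Lipschitz function.
-/

open scoped ContDiff Topology NNReal
open Set Metric MeasureTheory Filter

noncomputable section

namespace Pool.Agent.MP_13e7a1_an.H19

open Pool.Agent.MP_13e7a1_an.H82

theorem exists_sigma : ∃ σ : E → ℝ, ContDiff ℝ ∞ σ ∧ (∀ y, 1 ≤ ‖y‖ → σ y = 0) ∧
    ∫ y, σ y ^ 2 = 1 := by
  let b : ContDiffBump (0 : E) := ⟨1 / 2, 1, by norm_num, by norm_num⟩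
  have hb : Continuous b := b.continuous
  have hc : HasCompactSupport fun y => b y ^ 2 := by
    simp only [sq]
    exact b.hasCompactSupport.mul_right (f' := b)
  have hpos : 0 < ∫ y, b y ^ 2 := by
    refine Continuous.integral_pos_of_hasCompactSupport_nonneg_nonzero (x := 0) (by fun_prop) hc
      (fun y => sq_nonneg _) ?_
    rw [b.one_of_mem_closedBall (mem_closedBall_self b.rIn_pos.le)]
    norm_num
  refine ⟨fun y => (√(∫ y, b y ^ 2))⁻¹ * b y, contDiff_const.mul b.contDiff, fun y hy => ?_, ?_⟩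
  · have : b y = 0 := b.zero_of_le_dist (by simpa using hy)
    simp [this]
  · simp only [mul_pow, integral_const_mul, inv_pow, Real.sq_sqrt hpos.le]
    exact inv_mul_cancel₀ hpos.ne'

theorem moll_smooth {σ : E → ℝ} (hσ : ContDiff ℝ ∞ σ) (h0 : ∀ y, 1 ≤ ‖y‖ → σ y = 0) {κ : ℝ}
    (hκ : κ ≠ 0) {h : E → ℝ} (hh : Continuous h) : ContDiff ℝ ∞ (moll σ κ h) := by
  have hc : HasCompactSupport fun y => σ y ^ 2 := by
    refine HasCompactSupport.intro (isCompact_closedBall (0 : E) 1) fun y hy => ?_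
    rw [h0 y (by simpa using (le_of_lt (by simpa using hy)))]
    simp
  have hl : LocallyIntegrable (fun u : E => h (κ • u)) volume :=
    Continuous.locallyIntegrable (by fun_prop)
  have h1 := hc.contDiff_convolution_left (ContinuousLinearMap.mul ℝ ℝ) (n := ⊤) (hσ.pow 2) hl
  have h2 := h1.comp (contDiff_const_smul (R := ℝ) (F := E) κ⁻¹)
  convert h2 using 1
  funext x
  simp only [moll, Function.comp, convolution, ContinuousLinearMap.mul_apply', smul_sub,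
    smul_inv_smul₀ hκ]

theorem moll_set {σ : E → ℝ} (h0 : ∀ y, 1 ≤ ‖y‖ → σ y = 0) (κ : ℝ) (h : E → ℝ) (x : E) :
    moll σ κ h x = ∫ y in closedBall (0 : E) 2, h (x - κ • y) * σ y ^ 2 := by
  rw [setIntegral_eq_integral_of_forall_compl_eq_zero]
  · simp only [moll, mul_comm]
  · intro y hy
    rw [h0 y (by simp at hy; linarith)]
    simp

theorem shift1 {B : Set E} (hB : IsCompact B) {u w : E → ℝ} (cu : Continuous u)
    (cw : Continuous w) (i : ∫ y in B, w y = 1) (a : ℝ) :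
    ∫ y in B, (u y - a) * w y = (∫ y in B, u y * w y) - a := by
  simp only [sub_mul]
  rw [integral_sub (intB hB (by fun_prop)) (intB hB (by fun_prop)), integral_const_mul, i, mul_one]

theorem shift2 {B : Set E} (hB : IsCompact B) {u w : E → ℝ} (cu : Continuous u)
    (cw : Continuous w) (i : ∫ y in B, w y = 1) (a : ℝ) :
    ∫ y in B, (u y - a) ^ 2 * w y =
      (∫ y in B, u y ^ 2 * w y) - 2 * a * (∫ y in B, u y * w y) + a ^ 2 := by
  have : ∀ y, (u y - a) ^ 2 * w y = u y ^ 2 * w y - 2 * a * (u y * w y) + a ^ 2 * w y :=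
    fun y => by ring
  simp only [this]
  rw [integral_add (f := fun y => u y ^ 2 * w y - 2 * a * (u y * w y)) (intB hB (by fun_prop))
    (intB hB (by fun_prop)), integral_sub (intB hB (by fun_prop)) (intB hB (by fun_prop)),
    integral_const_mul, integral_const_mul, i, mul_one]

theorem wavg_le {B : Set E} (hB : IsCompact B) {u σ : E → ℝ} (cu : Continuous u)
    (cσ : Continuous σ) (i : ∫ y in B, σ y ^ 2 = 1) {a : ℝ} (h : ∀ y ∈ B, u y ≤ a) :
    ∫ y in B, u y * σ y ^ 2 ≤ a := by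
  have h2 : ∫ y in B, u y * σ y ^ 2 ≤ ∫ y in B, a * σ y ^ 2 := by
    refine setIntegral_mono_on (intB hB (by fun_prop)) (intB hB (by fun_prop)) hB.measurableSet
      fun y hy => ?_
    gcongr
    exact h y hy
  rwa [integral_const_mul, i, mul_one] at h2

theorem wavg_abs_le {B : Set E} (hB : IsCompact B) {u σ : E → ℝ} (cu : Continuous u)
    (cσ : Continuous σ) (i : ∫ y in B, σ y ^ 2 = 1) {a : ℝ} (h : ∀ y ∈ B, |u y| ≤ a) :
    |∫ y in B, u y * σ y ^ 2| ≤ a := by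
  refine abs_le.mpr ⟨?_, wavg_le hB cu cσ i fun y hy => (abs_le.mp (h y hy)).2⟩
  have := wavg_le hB (u := fun y => -u y) cu.neg cσ i (a := a)
    fun y hy => by linarith [(abs_le.mp (h y hy)).1]
  simp only [neg_mul, integral_neg] at this
  linarith

theorem cint {u : ℂ → ℝ} (hu : Continuous u) (r : ℝ) : CircleIntegrable u 0 r :=
  (hu.comp (continuous_circleMap 0 r)).intervalIntegrable _ _

theorem avg_lin (D : ℂ →L[ℝ] ℝ) (r : ℝ) : Real.circleAverage (fun z => D z) 0 r = 0 := by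
  have e : ∀ θ : ℝ, D (circleMap 0 r θ) =
      r * D 1 * Real.cos θ + r * D Complex.I * Real.sin θ := by
    intro θ
    have : circleMap 0 r θ = (r * Real.cos θ) • (1 : ℂ) + (r * Real.sin θ) • Complex.I := by
      apply Complex.ext <;> simp [circleMap, Complex.exp_re, Complex.exp_im, Complex.cos_ofReal_re,
        Complex.sin_ofReal_re]
    rw [this]
    simp only [map_add, map_smul, smul_eq_mul]
    ring
  rw [Real.circleAverage]
  simp only [e]
  rw [intervalIntegral.integral_add]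
  · simp
  · exact Continuous.intervalIntegrable (by fun_prop) _ _
  · exact Continuous.intervalIntegrable (by fun_prop) _ _

theorem avg_swap {B : Set E} (hB : IsCompact B) {W : ℂ → E → ℝ}
    (hW : Continuous fun z : ℂ × E => W z.1 z.2) (r : ℝ) :
    Real.circleAverage (fun z => ∫ y in B, W z y) 0 r =
      ∫ y in B, Real.circleAverage (fun z => W z y) 0 r := by
  simp only [Real.circleAverage, smul_eq_mul]
  rw [integral_const_mul, intervalIntegral_integral_swap]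
  rw [Measure.prod_restrict, ← Measure.volume_eq_prod]
  have hc : Continuous (Function.uncurry fun (θ : ℝ) (y : E) => W (circleMap 0 r θ) y) :=
    hW.comp (f := fun z : ℝ × E => (circleMap 0 r z.1, z.2))
      (((continuous_circleMap 0 r).comp continuous_fst).prodMk continuous_snd)
  exact (hc.continuousOn.integrableOn_compact (isCompact_uIcc.prod hB)).mono_set
    (Set.prod_mono uIoc_subset_uIcc Subset.rfl)

/-- The corrected mollification. -/
def corr (σ : E → ℝ) (κ C1 : ℝ) (f : E → ℝ) (x : E) : ℝ :=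
  moll σ κ f x + C1 / 2 * (moll σ κ (fun u => f u ^ 2) x - moll σ κ f x ^ 2)

theorem corr_smooth {σ : E → ℝ} (hσ : ContDiff ℝ ∞ σ) (h0 : ∀ y, 1 ≤ ‖y‖ → σ y = 0) {κ : ℝ}
    (hκ : κ ≠ 0) (C1 : ℝ) {f : E → ℝ} (hf : Continuous f) : ContDiff ℝ ∞ (corr σ κ C1 f) := by
  have h1 := moll_smooth hσ h0 hκ hf
  have h2 := moll_smooth hσ h0 hκ (hf.pow 2)
  exact h1.add (contDiff_const.mul (h2.sub (h1.pow 2)))

theorem sig_set {σ : E → ℝ} (h0 : ∀ y, 1 ≤ ‖y‖ → σ y = 0) (i : ∫ y, σ y ^ 2 = 1) :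
    ∫ y in closedBall (0 : E) 2, σ y ^ 2 = 1 := by
  rw [setIntegral_eq_integral_of_forall_compl_eq_zero, i]
  intro y hy
  rw [h0 y (by simp at hy; linarith)]
  simp

theorem lip_near {f : E → ℝ} {Lc : ℝ≥0} (hf : LipschitzWith Lc f) {κ : ℝ} (hκ : 0 ≤ κ) (x : E)
    {y : E} (hy : y ∈ closedBall (0 : E) 2) : |f (x - κ • y) - f x| ≤ 2 * Lc * κ := by
  have h := hf.dist_le_mul (x - κ • y) x
  rw [Real.dist_eq, dist_eq_norm, sub_sub_cancel_left, norm_neg, norm_smul, Real.norm_eq_abs,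
    abs_of_nonneg hκ] at h
  have hy' : ‖y‖ ≤ 2 := by simpa using hy
  calc _ ≤ Lc * (κ * ‖y‖) := h
    _ ≤ Lc * (κ * 2) := by gcongr
    _ = _ := by ring

theorem moll_near {σ : E → ℝ} (cσ : Continuous σ) (h0 : ∀ y, 1 ≤ ‖y‖ → σ y = 0)
    (i : ∫ y, σ y ^ 2 = 1) {f : E → ℝ} {Lc : ℝ≥0} (hf : LipschitzWith Lc f) {κ : ℝ} (hκ : 0 ≤ κ)
    (x : E) : |moll σ κ f x - f x| ≤ 2 * Lc * κ := by
  have cf := hf.continuous
  have hB := isCompact_closedBall (0 : E) 2
  rw [moll_set h0, ← shift1 hB (by fun_prop) (by fun_prop) (sig_set h0 i)]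
  exact wavg_abs_le hB (by fun_prop) cσ (sig_set h0 i) fun y hy => lip_near hf hκ x hy

theorem q_bound {σ : E → ℝ} (cσ : Continuous σ) (h0 : ∀ y, 1 ≤ ‖y‖ → σ y = 0)
    (i : ∫ y, σ y ^ 2 = 1) {f : E → ℝ} {Lc : ℝ≥0} (hf : LipschitzWith Lc f) {κ : ℝ} (hκ : 0 ≤ κ)
    (x : E) {y : E} (hy : y ∈ closedBall (0 : E) 2) :
    |f (x - κ • y) - moll σ κ f x| ≤ 4 * Lc * κ := by
  have h1 := abs_le.mp (lip_near hf hκ x hy)
  have h2 := abs_le.mp (moll_near cσ h0 i hf hκ x)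
  rw [abs_le]
  constructor <;> linarith [h1.1, h1.2, h2.1, h2.2]

theorem var_eq {σ : E → ℝ} (cσ : Continuous σ) (h0 : ∀ y, 1 ≤ ‖y‖ → σ y = 0)
    (i : ∫ y, σ y ^ 2 = 1) {f : E → ℝ} (cf : Continuous f) (κ : ℝ) (x : E) :
    ∫ y in closedBall (0 : E) 2, (f (x - κ • y) - moll σ κ f x) ^ 2 * σ y ^ 2 =
      moll σ κ (fun u => f u ^ 2) x - moll σ κ f x ^ 2 := by
  rw [shift2 (isCompact_closedBall (0 : E) 2) (by fun_prop) (by fun_prop) (sig_set h0 i),
    ← moll_set h0 κ f x, ← moll_set h0 κ (fun u => f u ^ 2) x]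
  ring

theorem corr_near {σ : E → ℝ} (cσ : Continuous σ) (h0 : ∀ y, 1 ≤ ‖y‖ → σ y = 0)
    (i : ∫ y, σ y ^ 2 = 1) {f : E → ℝ} {Lc : ℝ≥0} (hf : LipschitzWith Lc f) {κ C1 : ℝ}
    (hκ : 0 ≤ κ) (hC1 : 0 < C1) (hs : C1 * (4 * Lc * κ) ≤ 1 / 2) (x : E) :
    |corr σ κ C1 f x - f x| ≤ 4 * Lc * κ := by
  have cf := hf.continuous
  have h1 := abs_le.mp (moll_near cσ h0 i hf hκ x)
  have h2 : |moll σ κ (fun u => f u ^ 2) x - moll σ κ f x ^ 2| ≤ (4 * Lc * κ) ^ 2 := by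
    rw [← var_eq cσ h0 i cf]
    refine wavg_abs_le (isCompact_closedBall (0 : E) 2) (by fun_prop) cσ (sig_set h0 i)
      fun y hy => ?_
    rw [abs_pow]
    exact pow_le_pow_left₀ (abs_nonneg _) (q_bound cσ h0 i hf hκ x hy) 2
  have ha : 0 ≤ 4 * (Lc : ℝ) * κ := by positivity
  have h3 : |C1 / 2 * (moll σ κ (fun u => f u ^ 2) x - moll σ κ f x ^ 2)| ≤ Lc * κ := by
    rw [abs_mul, abs_of_pos (by positivity : 0 < C1 / 2)]
    calc _ ≤ C1 / 2 * (4 * Lc * κ) ^ 2 := by gcongr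
      _ = C1 * (4 * Lc * κ) * (2 * Lc * κ) := by ring
      _ ≤ 1 / 2 * (2 * Lc * κ) := by gcongr
      _ = _ := by ring
  have h4 := abs_le.mp h3
  have h5 : 0 ≤ (Lc : ℝ) * κ := by positivity
  rw [corr, abs_le]
  constructor <;> nlinarith [h1.1, h1.2, h4.1, h4.2]

/-- The increment of the corrected mollification along a disc. -/
theorem incr {σ : E → ℝ} (cσ : Continuous σ) (h0 : ∀ y, 1 ≤ ‖y‖ → σ y = 0)
    (i : ∫ y, σ y ^ 2 = 1) {f : E → ℝ} {Lc : ℝ≥0} (hf : LipschitzWith Lc f) {κ C1 C S r : ℝ}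
    (hκ : 0 ≤ κ) (hC1 : 0 < C1) (hC : 0 ≤ C) (hS : 0 ≤ S) (hr : 0 ≤ r)
    (bσ : ∀ y ∈ closedBall (0 : E) 2, |σ y| ≤ S) (x₀ : E) {Γ : E → E} (cΓ : Continuous Γ)
    (bΓ : ∀ y ∈ closedBall (0 : E) 2, ‖Γ (x₀ - κ • y) - (x₀ - κ • y)‖ ≤ C * r)
    {Θ t : E → ℝ} (cΘ : Continuous Θ) (ct : Continuous t)
    (bt : ∀ y ∈ closedBall (0 : E) 2, |t y| ≤ C * r) (zΘ : ∀ y, 2 ≤ ‖y‖ → Θ y = 0)
    (bR : ∀ y, ‖y‖ ≤ 2 → |Θ y - σ y ^ 2 - σ y * t y| ≤ C * r ^ 2) (it : ∫ y, σ y * t y = 0)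
    (hK : ∀ h : E → ℝ, Continuous h → moll σ κ h (Γ x₀) = ∫ y, h (Γ (x₀ - κ • y)) * Θ y) :
    (∫ y in closedBall (0 : E) 2, ((1 + C1 * (f (x₀ - κ • y) - moll σ κ f x₀)) * σ y ^ 2 *
        (f (Γ (x₀ - κ • y)) - f (x₀ - κ • y)) + ((f (x₀ - κ • y) - moll σ κ f x₀)
          + C1 / 2 * (f (x₀ - κ • y) - moll σ κ f x₀) ^ 2) * σ y * t y))
      - r ^ 2 * errF (volume.real (closedBall (0 : E) 2)) C (Lc * C) S C1 (4 * Lc * κ) r ≤
      corr σ κ C1 f (Γ x₀) - corr σ κ C1 f x₀ := by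
  have cf := hf.continuous
  have hB := isCompact_closedBall (0 : E) 2
  have iσ := sig_set h0 i
  have hK' : ∀ h : E → ℝ, Continuous h →
      moll σ κ h (Γ x₀) = ∫ y in closedBall (0 : E) 2, h (Γ (x₀ - κ • y)) * Θ y := by
    intro h hh
    rw [hK h hh, setIntegral_eq_integral_of_forall_compl_eq_zero]
    intro y hy
    rw [zΘ y (by simp at hy; linarith)]
    simp
  have iΘ : ∫ y in closedBall (0 : E) 2, Θ y = 1 := by
    have := hK' (fun _ => 1) continuous_const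
    simp only [moll, mul_one, one_mul] at this
    rw [← this, i]
  have it' : ∫ y in closedBall (0 : E) 2, σ y * t y = 0 := by
    rw [setIntegral_eq_integral_of_forall_compl_eq_zero, it]
    intro y hy
    rw [h0 y (by simp at hy; linarith)]
    simp
  have iq : ∫ y in closedBall (0 : E) 2, (f (x₀ - κ • y) - moll σ κ f x₀) * σ y ^ 2 = 0 := by
    rw [shift1 hB (by fun_prop) (by fun_prop) iσ, ← moll_set h0, sub_self]
  have h := key hB (q := fun y => f (x₀ - κ • y) - moll σ κ f x₀)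
    (d := fun y => f (Γ (x₀ - κ • y)) - f (x₀ - κ • y)) (by fun_prop) (by fun_prop) cσ ct cΘ
    (a := 4 * Lc * κ) (β := Lc * C) hC1 (by positivity) (by positivity) hS hC hr
    (fun y hy => q_bound cσ h0 i hf hκ x₀ hy)
    (fun y hy => by
      have h := hf.dist_le_mul (Γ (x₀ - κ • y)) (x₀ - κ • y)
      rw [Real.dist_eq, dist_eq_norm] at h
      calc _ ≤ Lc * ‖Γ (x₀ - κ • y) - (x₀ - κ • y)‖ := h
        _ ≤ Lc * (C * r) := by gcongr; exact bΓ y hy
        _ = _ := by ring)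
    bσ bt (fun y hy => bR y (by simpa using hy)) iσ it' iq
  refine h.trans (le_of_eq ?_)
  have e : ∀ y, f (x₀ - κ • y) - moll σ κ f x₀ + (f (Γ (x₀ - κ • y)) - f (x₀ - κ • y)) =
      f (Γ (x₀ - κ • y)) - moll σ κ f x₀ := fun y => by ring
  simp only [e]
  rw [shift1 hB (by fun_prop) cΘ iΘ, shift2 hB (by fun_prop) cΘ iΘ, var_eq cσ h0 i cf,
    ← hK' f cf, ← hK' (fun u => f u ^ 2) (by fun_prop), corr, corr]
  ring

theorem avg_cont {W : ℂ → E → ℝ} (hW : Continuous fun z : ℂ × E => W z.1 z.2) (r : ℝ) :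
    Continuous fun y => Real.circleAverage (fun z => W z y) 0 r := by
  simp only [Real.circleAverage]
  refine (intervalIntegral.continuous_parametric_intervalIntegral_of_continuous' (μ := volume)
    (f := fun (y : E) (θ : ℝ) => W (circleMap 0 r θ) y) ?_ _ _).const_smul (2 * Real.pi)⁻¹
  exact hW.comp (f := fun z : E × ℝ => (circleMap 0 r z.2, z.1))
    (((continuous_circleMap 0 r).comp continuous_snd).prodMk continuous_fst)

theorem avg_aff {u : ℂ → ℝ} (hu : Continuous u) (D : ℂ →L[ℝ] ℝ) (a b e r : ℝ) :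
    Real.circleAverage (fun z => a * (u z - e) + b * D z) 0 r =
      a * (Real.circleAverage u 0 r - e) := by
  rw [Real.circleAverage_fun_add (cint (by fun_prop) r) (cint (by fun_prop) r)]
  have h1 := Real.circleAverage_fun_smul (c := 0) (R := r) (a := a) (f := fun z => u z - e)
  have h2 := Real.circleAverage_fun_smul (c := 0) (R := r) (a := b) (f := fun z => D z)
  simp only [smul_eq_mul] at h1 h2
  rw [h1, h2, avg_lin, Real.circleAverage_fun_sub (cint hu r) (cint continuous_const r),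
    Real.circleAverage_const]
  ring

/-- Lower bound of the circle average of the corrected mollification. -/
theorem avg_lower {σ : E → ℝ} (cσ : Continuous σ) (h0 : ∀ y, 1 ≤ ‖y‖ → σ y = 0)
    (i : ∫ y, σ y ^ 2 = 1) {f : E → ℝ} {Lc : ℝ≥0} (hf : LipschitzWith Lc f)
    {κ C1 C S r N : ℝ} (hκ : 0 ≤ κ) (hC1 : 0 < C1) (hC : 0 ≤ C) (hS : 0 ≤ S) (hr : 0 < r)
    (hN : 0 ≤ N) (hs : C1 * (4 * Lc * κ) ≤ 1 / 2) (cg : Continuous (corr σ κ C1 f))
    (bσ : ∀ y ∈ closedBall (0 : E) 2, |σ y| ≤ S) (x₀ : E) {Γ : E → ℂ → E}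
    (cΓ : Continuous fun z : E × ℂ => Γ z.1 z.2)
    (bΓ : ∀ y ∈ closedBall (0 : E) 2, ∀ ζ : ℂ, ‖ζ‖ = r →
      ‖Γ (x₀ - κ • y) ζ - (x₀ - κ • y)‖ ≤ C * r)
    (hsub : ∀ y ∈ closedBall (0 : E) 2,
      f (x₀ - κ • y) - N ≤ Real.circleAverage (fun ζ => f (Γ (x₀ - κ • y) ζ)) 0 r)
    {Θ : ℂ × E → ℝ} {k : E → ℂ →L[ℝ] ℝ} (cΘ : Continuous Θ) (ck : Continuous k)
    (bk : ∀ y, ‖y‖ ≤ 2 → ‖k y‖ ≤ C)
    (hK : ∀ ζ : ℂ, ‖ζ‖ = r → (∀ y, 2 ≤ ‖y‖ → Θ (ζ, y) = 0) ∧
      (∀ y, ‖y‖ ≤ 2 → |Θ (ζ, y) - σ y ^ 2 - σ y * k y ζ| ≤ C * ‖ζ‖ ^ 2) ∧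
      (∫ y, σ y * k y ζ = 0) ∧ ∀ h : E → ℝ, Continuous h →
        moll σ κ h (Γ x₀ ζ) = ∫ y, h (Γ (x₀ - κ • y) ζ) * Θ (ζ, y)) :
    -(3 / 2 * N) - r ^ 2 * errF (volume.real (closedBall (0 : E) 2)) C (Lc * C) S C1
      (4 * Lc * κ) r ≤
      Real.circleAverage (fun ζ => corr σ κ C1 f (Γ x₀ ζ)) 0 r - corr σ κ C1 f x₀ := by
  have cf := hf.continuous
  have hB := isCompact_closedBall (0 : E) 2
  have cΓ1 : Continuous fun z : ℂ × E => Γ (x₀ - κ • z.2) z.1 :=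
    cΓ.comp (f := fun z : ℂ × E => (x₀ - κ • z.2, z.1)) (by fun_prop)
  have cΓ2 : ∀ x, Continuous fun ζ => Γ x ζ := fun x =>
    cΓ.comp (f := fun ζ : ℂ => (x, ζ)) (by fun_prop)
  have cΓ3 : ∀ ζ, Continuous fun x => Γ x ζ := fun ζ =>
    cΓ.comp (f := fun x : E => (x, ζ)) (by fun_prop)
  set W : ℂ → E → ℝ := fun ζ y => (1 + C1 * (f (x₀ - κ • y) - moll σ κ f x₀)) * σ y ^ 2 *
    (f (Γ (x₀ - κ • y) ζ) - f (x₀ - κ • y)) + ((f (x₀ - κ • y) - moll σ κ f x₀)
      + C1 / 2 * (f (x₀ - κ • y) - moll σ κ f x₀) ^ 2) * σ y * k y ζ with hWdef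
  have cW : Continuous fun z : ℂ × E => W z.1 z.2 := by
    have h1 := cf.comp cΓ1
    have h2 : Continuous fun z : ℂ × E => k z.2 z.1 := by fun_prop
    simp only [hWdef]
    exact ((by fun_prop : Continuous fun z : ℂ × E =>
      (1 + C1 * (f (x₀ - κ • z.2) - moll σ κ f x₀)) * σ z.2 ^ 2).mul (h1.sub (by fun_prop))).add
      ((by fun_prop : Continuous fun z : ℂ × E => ((f (x₀ - κ • z.2) - moll σ κ f x₀)
      + C1 / 2 * (f (x₀ - κ • z.2) - moll σ κ f x₀) ^ 2) * σ z.2).mul h2)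
  have cI : Continuous fun ζ => ∫ y in closedBall (0 : E) 2, W ζ y :=
    continuous_parametric_integral_of_continuous (f := W) cW hB
  set e := r ^ 2 * errF (volume.real (closedBall (0 : E) 2)) C (Lc * C) S C1 (4 * Lc * κ) r
    with he
  have h1 : Real.circleAverage (fun ζ => (∫ y in closedBall (0 : E) 2, W ζ y)
      - (e - corr σ κ C1 f x₀)) 0 r ≤ Real.circleAverage (fun ζ => corr σ κ C1 f (Γ x₀ ζ)) 0 r := by
    refine Real.circleAverage_mono (cint (by fun_prop) r) (cint (cg.comp (cΓ2 x₀)) r) fun ζ hζ => ?_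
    have hζ' : ‖ζ‖ = r := by simpa [abs_of_pos hr] using hζ
    obtain ⟨k1, k2, k3, k4⟩ := hK ζ hζ'
    have := incr cσ h0 i hf hκ hC1 hC hS hr.le bσ x₀ (Γ := fun x => Γ x ζ) (cΓ3 ζ)
      (fun y hy => bΓ y hy ζ hζ') (Θ := fun y => Θ (ζ, y)) (t := fun y => k y ζ) (by fun_prop)
      (by fun_prop) (fun y hy => by
        have := (k y).le_opNorm ζ
        rw [hζ', Real.norm_eq_abs] at this
        exact this.trans (mul_le_mul_of_nonneg_right (bk y (by simpa using hy)) hr.le))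
      k1 (fun y hy => hζ' ▸ k2 y hy) k3 k4
    simp only [hWdef]
    linarith
  rw [Real.circleAverage_fun_sub (cint cI r) (cint continuous_const r), Real.circleAverage_const,
    avg_swap hB cW] at h1
  have h2 : ∫ y in closedBall (0 : E) 2, -(3 / 2 * N) * σ y ^ 2 ≤
      ∫ y in closedBall (0 : E) 2, Real.circleAverage (fun ζ => W ζ y) 0 r := by
    refine setIntegral_mono_on (intB hB (by fun_prop)) (intB hB (avg_cont cW r)) hB.measurableSet
      fun y hy => ?_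
    simp only [hWdef]
    rw [avg_aff (u := fun ζ => f (Γ (x₀ - κ • y) ζ)) (cf.comp (cΓ2 _))]
    have q1 := abs_le.mp (q_bound cσ h0 i hf hκ x₀ hy)
    have q2 : 0 ≤ 1 + C1 * (f (x₀ - κ • y) - moll σ κ f x₀) := by nlinarith [q1.1]
    have q3 : 1 + C1 * (f (x₀ - κ • y) - moll σ κ f x₀) ≤ 3 / 2 := by nlinarith [q1.2]
    have q4 := hsub y hy
    have q5 := sq_nonneg (σ y)
    calc -(3 / 2 * N) * σ y ^ 2
        ≤ (1 + C1 * (f (x₀ - κ • y) - moll σ κ f x₀)) * σ y ^ 2 * (-N) := by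
          nlinarith [mul_nonneg (mul_nonneg (sub_nonneg.mpr q3) q5) hN]
      _ ≤ _ := mul_le_mul_of_nonneg_left (by linarith) (mul_nonneg q2 q5)
  rw [integral_const_mul, sig_set h0 i, mul_one] at h2
  linarith

theorem errF_cont (V C β S C1 : ℝ) : Continuous fun z : ℝ × ℝ => errF V C β S C1 z.1 z.2 := by
  unfold errF
  fun_prop

theorem smooth (hK : SKer) (hL : SLap) : SSmooth := by
  intro c p R δ lam hF f η Lc A z₀ δ₁ δ₂ hf cη hη hA hz₀ hzδ hδ₂ h21 h1δ hsub γ hγ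
  obtain ⟨σ, hσ, h0, i⟩ := exists_sigma
  have cσ := hσ.continuous
  have cf := hf.continuous
  obtain ⟨C, r₀, κ₀, hC, hr₀, hr₁, hκ₀, hlam, hker⟩ :=
    hK c p R δ lam hF σ hσ h0 i δ₂ hδ₂ (h21.trans_le h1δ)
  obtain ⟨S, hS⟩ := (isCompact_closedBall (0 : E) 2).exists_bound_of_continuousOn cσ.continuousOn
  have hS0 : 0 ≤ S := (norm_nonneg _).trans (hS 0 (by simp))
  set V := volume.real (closedBall (0 : E) 2) with hV
  have hV0 : 0 ≤ V := measureReal_nonneg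
  set τ := γ * z₀ ^ 2 with hτ
  have hτ0 : 0 < τ := by positivity
  set C1 := (8 * V * C ^ 2 + 1) / τ with hC1
  have hC10 : 0 < C1 := by positivity
  have herr0 : errF V C (Lc * C) S C1 0 0 < τ / 8 := by
    have e : errF V C (Lc * C) S C1 0 0 = V * C ^ 2 / (2 * C1) := by
      rw [errF]
      ring
    rw [e, div_lt_iff₀ (by positivity), hC1]
    have : τ / 8 * (2 * ((8 * V * C ^ 2 + 1) / τ)) = (8 * V * C ^ 2 + 1) / 4 := by
      field_simp
      ring
    rw [this]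
    nlinarith [mul_nonneg hV0 (sq_nonneg C)]
  set w := τ / (12 * (A + 1)) with hw
  have hw0 : 0 < w := by positivity
  obtain ⟨d, hd, hdη⟩ := Metric.uniformContinuousOn_iff.mp
    ((isCompact_closedBall p δ₁).uniformContinuousOn_of_continuous cη.continuousOn) w hw0
  have lt0 : ∀ (u : ℝ → ℝ) (b : ℝ), Continuous u → u 0 < b → ∀ᶠ κ in 𝓝[>] (0 : ℝ), u κ < b :=
    fun u b hu hb => ((hu.tendsto 0).eventually (gt_mem_nhds hb)).filter_mono nhdsWithin_le_nhds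
  have ev1 := lt0 (fun κ => κ) κ₀ continuous_id hκ₀
  have ev2 := lt0 (fun κ => 2 * κ) (δ₁ - δ₂) (by fun_prop) (by simpa using h21)
  have ev3 := lt0 (fun κ => 2 * κ) d (by fun_prop) (by simpa using hd)
  have ev4 := lt0 (fun κ => C1 * (4 * Lc * κ)) (1 / 2) (by fun_prop) (by simp)
  have ev5 := lt0 (fun κ => 4 * Lc * κ) γ (by fun_prop) (by simpa using hγ)
  have ev6 := lt0 (fun κ => errF V C (Lc * C) S C1 (4 * Lc * κ) 0) (τ / 8)
    ((errF_cont V C (Lc * C) S C1).comp (f := fun κ : ℝ => (4 * Lc * κ, (0 : ℝ))) (by fun_prop))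
    (by simpa using herr0)
  obtain ⟨κ, ⟨⟨⟨⟨⟨⟨k1, k2⟩, k3⟩, k4⟩, k5⟩, k6⟩, hκ⟩⟩ :=
    ((((((ev1.and ev2).and ev3).and ev4).and ev5).and ev6).and self_mem_nhdsWithin).exists
  have hκ : 0 < κ := hκ
  have hg := corr_smooth hσ h0 hκ.ne' C1 cf
  refine ⟨corr σ κ C1 f, hg, fun x hx => ⟨(corr_near cσ h0 i hf hκ.le hC10 k4.le x).trans k5.le, ?_⟩⟩
  have hxδ : x ∈ ball p δ := ball_subset_ball (by linarith) hx
  have hx1 : x ∈ ball p δ₁ := ball_subset_ball h21.le hx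
  have hdist : ∀ y ∈ closedBall (0 : E) 2, dist (x - κ • y) x ≤ 2 * κ := fun y hy => by
    rw [dist_eq_norm, sub_sub_cancel_left, norm_neg, norm_smul, Real.norm_eq_abs, abs_of_pos hκ]
    have : ‖y‖ ≤ 2 := by simpa using hy
    nlinarith
  have hX : ∀ y ∈ closedBall (0 : E) 2, x - κ • y ∈ ball p δ₁ := fun y hy => by
    rw [mem_ball] at hx ⊢
    linarith [dist_triangle (x - κ • y) x p, hdist y hy]
  have hXη : ∀ y ∈ closedBall (0 : E) 2, η (x - κ • y) ≤ η x + w := fun y hy => by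
    have := hdη _ (ball_subset_closedBall (hX y hy)) _ (ball_subset_closedBall hx1)
      ((hdist y hy).trans_lt k3)
    rw [Real.dist_eq] at this
    linarith [(abs_lt.mp this).2]
  have main : ∀ Z : E, ‖Z‖ = z₀ → -(6 * A * η x + τ) ≤ c.L Z (corr σ κ C1 f) x := by
    intro Z hZ
    have hZδ : Z ∈ ball (0 : E) δ := by simpa [hZ] using hzδ
    obtain ⟨Θ, k, cΘ, ck, bk, hk⟩ := hker κ hκ k1 x hx Z hZδ
    have sγ : ContDiff ℝ ∞ fun ζ : ℂ => lam (x, Z, ζ) := hF.smooth.comp (by fun_prop)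
    have hlim := hL.lim (fun ζ => corr σ κ C1 f (lam (x, Z, ζ))) (hg.comp sγ)
    rw [hL.disc c (fun ζ => lam (x, Z, ζ)) sγ (hF.hol x hxδ Z hZδ) _ hg, hF.vel x hxδ Z hZδ,
      hF.zero x hxδ Z hZδ] at hlim
    have hlim2 : Tendsto (fun r : ℝ => -(3 / 2 * (A * (η x + w)))
        - errF V C (Lc * C) S C1 (4 * Lc * κ) r) (𝓝[>] 0)
        (𝓝 (-(3 / 2 * (A * (η x + w))) - errF V C (Lc * C) S C1 (4 * Lc * κ) 0)) :=
      ((continuous_const.sub ((errF_cont V C (Lc * C) S C1).comp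
        (f := fun r : ℝ => (4 * Lc * κ, r)) (by fun_prop))).tendsto 0).mono_left nhdsWithin_le_nhds
    have hle := le_of_tendsto_of_tendsto hlim2 hlim (by
      filter_upwards [lt0 (fun r => r) r₀ continuous_id hr₀, self_mem_nhdsWithin] with r hrr hr
      have hr : 0 < r := hr
      have hηx := hη x hx1
      have := avg_lower cσ h0 i hf (N := A * r ^ 2 * (η x + w)) hκ.le hC10 hC hS0 hr
        (by positivity) k4.le hg.continuous (fun y hy => hS y hy) x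
        (Γ := fun x ζ => lam (x, Z, ζ)) (hF.smooth.continuous.comp (by fun_prop))
        (fun y hy ζ hζ => hζ ▸ hlam _ (ball_subset_ball h1δ (hX y hy)) Z hZδ ζ (by linarith))
        (fun y hy => by
          refine le_trans ?_ (hsub _ (hX y hy) Z hZ r hr (by linarith))
          have := mul_le_mul_of_nonneg_left (hXη y hy) (by positivity : 0 ≤ A * r ^ 2)
          linarith)
        cΘ ck bk (fun ζ hζ => hk ζ (by linarith))
      rw [le_div_iff₀ (by positivity)]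
      linarith)
    have hAw : 6 * A * w ≤ τ / 2 := by
      rw [hw, mul_div_assoc', div_le_iff₀ (by positivity)]
      nlinarith
    linarith
  intro Z
  rcases eq_or_ne Z 0 with rfl | hZ
  · have := hL.smul c 0 0 (corr σ κ C1 f) x
    rw [smul_zero] at this
    rw [this, norm_zero]
    simp
  · have hn : 0 < ‖Z‖ := norm_pos_iff.mpr hZ
    have e : Z = (‖Z‖ / z₀) • ((z₀ / ‖Z‖) • Z) := by
      rw [smul_smul, show ‖Z‖ / z₀ * (z₀ / ‖Z‖) = 1 by field_simp, one_smul]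
    have h := main ((z₀ / ‖Z‖) • Z) (by
      rw [norm_smul, Real.norm_eq_abs, abs_of_pos (by positivity)]
      field_simp)
    have h2 := hL.smul c (‖Z‖ / z₀) ((z₀ / ‖Z‖) • Z) (corr σ κ C1 f) x
    rw [← e] at h2
    rw [h2]
    refine le_trans (le_of_eq ?_) (mul_le_mul_of_nonneg_left h (sq_nonneg _))
    rw [hτ]
    field_simp

end Pool.Agent.MP_13e7a1_an.H19
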