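import Pool.Agent.MP_13e7a1_an.H82.Spec

/-!
The integral inequality behind the variance-corrected mollification.
-/

open scoped ContDiff Topology NNReal
open Set Metric MeasureTheory Filter

noncomputable section

namespace Pool.Agent.MP_13e7a1_an.H19

open Pool.Agent.MP_13e7a1_an.H82

theorem intB {B : Set E} (hB : IsCompact B) {u : E → ℝ} (hu : Continuous u) :
    Integrable u (volume.restrict B) :=
  hu.continuousOn.integrableOn_compact hB

/-- The error term, divided by `r ^ 2`. -/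
def errF (V C β S C1 a r : ℝ) : ℝ :=
  V * (C ^ 2 / (2 * C1) + (a + β * r) * C + C1 / 2 * (a + β * r) ^ 2 * C + C1 * a * β * S * C
    + C1 / 2 * β ^ 2 * S * C * r)
    + C1 / 2 * ((V * ((a + β * r) * (S * C + C * r))) * (2 * β + V * ((a + β * r) * (S * C + C * r))))

theorem pointwise {q d σ t R m a b S e e₂ C1 : ℝ} (hC1 : 0 < C1) (hq : |q| ≤ a) (hd : |d| ≤ b)
    (hσ : |σ| ≤ S) (ht : |t| ≤ e) (hR : |R| ≤ e₂) :
    -(e ^ 2 / (2 * C1) + (a + b) * e₂ + C1 / 2 * (a + b) ^ 2 * e₂ + C1 * a * b * S * e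
        + C1 / 2 * b ^ 2 * S * e) ≤
      (d - m) * σ * t + C1 / 2 * ((d - m) * σ) ^ 2 + (q + d) * R + C1 / 2 * (q + d) ^ 2 * R
        + C1 * q * d * σ * t + C1 / 2 * d ^ 2 * σ * t := by
  have ha : 0 ≤ a := (abs_nonneg _).trans hq
  have hb : 0 ≤ b := (abs_nonneg _).trans hd
  have hS : 0 ≤ S := (abs_nonneg _).trans hσ
  have he : 0 ≤ e := (abs_nonneg _).trans ht
  have he₂ : 0 ≤ e₂ := (abs_nonneg _).trans hR
  have hqd : |q + d| ≤ a + b := (abs_add_le _ _).trans (add_le_add hq hd)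
  have h1 : -(e ^ 2 / (2 * C1)) ≤ (d - m) * σ * t + C1 / 2 * ((d - m) * σ) ^ 2 := by
    have ht2 : t ^ 2 ≤ e ^ 2 := sq_le_sq' (by linarith [(abs_le.mp ht).1]) (abs_le.mp ht).2
    have h2 : t ^ 2 / (2 * C1) ≤ e ^ 2 / (2 * C1) := by gcongr
    have h3 : (d - m) * σ * t + C1 / 2 * ((d - m) * σ) ^ 2 + t ^ 2 / (2 * C1) =
        (C1 * ((d - m) * σ) + t) ^ 2 / (2 * C1) := by
      field_simp
      ring
    have h4 : 0 ≤ (C1 * ((d - m) * σ) + t) ^ 2 / (2 * C1) := by positivity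
    linarith
  have h2 : |(q + d) * R| ≤ (a + b) * e₂ := by
    rw [abs_mul]; gcongr
  have h3 : |C1 / 2 * (q + d) ^ 2 * R| ≤ C1 / 2 * (a + b) ^ 2 * e₂ := by
    rw [abs_mul, abs_mul, abs_pow, abs_of_pos (by positivity : 0 < C1 / 2)]; gcongr
  have h4 : |C1 * q * d * σ * t| ≤ C1 * a * b * S * e := by
    rw [abs_mul, abs_mul, abs_mul, abs_mul, abs_of_pos hC1]; gcongr
  have h5 : |C1 / 2 * d ^ 2 * σ * t| ≤ C1 / 2 * b ^ 2 * S * e := by
    rw [abs_mul, abs_mul, abs_mul, abs_pow, abs_of_pos (by positivity : 0 < C1 / 2)]; gcongr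
  linarith [(abs_le.mp h2).1, (abs_le.mp h3).1, (abs_le.mp h4).1, (abs_le.mp h5).1]

theorem key {B : Set E} (hB : IsCompact B) {q d σ t Θ : E → ℝ} (cq : Continuous q)
    (cd : Continuous d) (cσ : Continuous σ) (ct : Continuous t) (cΘ : Continuous Θ)
    {a β S C C1 r : ℝ} (hC1 : 0 < C1) (ha : 0 ≤ a) (hβ : 0 ≤ β) (hS : 0 ≤ S) (hC : 0 ≤ C)
    (hr : 0 ≤ r)
    (bq : ∀ y ∈ B, |q y| ≤ a) (bd : ∀ y ∈ B, |d y| ≤ β * r) (bσ : ∀ y ∈ B, |σ y| ≤ S)
    (bt : ∀ y ∈ B, |t y| ≤ C * r) (bR : ∀ y ∈ B, |Θ y - σ y ^ 2 - σ y * t y| ≤ C * r ^ 2)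
    (i1 : ∫ y in B, σ y ^ 2 = 1) (i2 : ∫ y in B, σ y * t y = 0)
    (i3 : ∫ y in B, q y * σ y ^ 2 = 0) :
    (∫ y in B, ((1 + C1 * q y) * σ y ^ 2 * d y + (q y + C1 / 2 * q y ^ 2) * σ y * t y))
        - r ^ 2 * errF (volume.real B) C β S C1 a r ≤
      (∫ y in B, (q y + d y) * Θ y) + C1 / 2 * ((∫ y in B, (q y + d y) ^ 2 * Θ y)
        - (∫ y in B, (q y + d y) * Θ y) ^ 2 - ∫ y in B, q y ^ 2 * σ y ^ 2) := by
  have hBm : MeasurableSet B := hB.measurableSet
  have hfin : volume B < ⊤ := hB.measure_lt_top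
  have hV : 0 ≤ volume.real B := measureReal_nonneg
  set V := volume.real B with hVdef
  set m0 := ∫ y in B, d y * σ y ^ 2 with hm0
  set m := ∫ y in B, (q y + d y) * Θ y with hm
  have hm0b : |m0| ≤ β * r := by
    have h1 : |m0| ≤ ∫ y in B, |d y * σ y ^ 2| := abs_integral_le_integral_abs
    have h2 : ∫ y in B, |d y * σ y ^ 2| ≤ ∫ y in B, β * r * σ y ^ 2 := by
      refine setIntegral_mono_on (intB hB (by fun_prop)) (intB hB (by fun_prop)) hBm fun y hy => ?_
      rw [abs_mul, abs_of_nonneg (sq_nonneg (σ y))]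
      gcongr
      exact bd y hy
    rw [integral_const_mul, i1, mul_one] at h2
    exact h1.trans h2
  set D := V * ((a + β * r) * (S * C + C * r)) with hD
  have hD0 : 0 ≤ D := by positivity
  have hn : |m - m0| ≤ D * r := by
    have e : m - m0 = ∫ y in B, (q y + d y) * (Θ y - σ y ^ 2) := by
      have : ∀ y, (q y + d y) * (Θ y - σ y ^ 2) =
          (q y + d y) * Θ y - d y * σ y ^ 2 - q y * σ y ^ 2 := fun y => by ring
      simp only [this]
      rw [integral_sub (intB hB (by fun_prop)) (intB hB (by fun_prop)),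
        integral_sub (intB hB (by fun_prop)) (intB hB (by fun_prop)), i3, sub_zero]
    rw [e]
    have h := norm_setIntegral_le_of_norm_le_const (μ := volume) (s := B)
      (f := fun y => (q y + d y) * (Θ y - σ y ^ 2))
      (C := (a + β * r) * (S * (C * r) + C * r ^ 2)) hfin (fun y hy => by
        rw [Real.norm_eq_abs, abs_mul]
        have h1 : |q y + d y| ≤ a + β * r :=
          (abs_add_le _ _).trans (add_le_add (bq y hy) (bd y hy))
        have h2 : |Θ y - σ y ^ 2| ≤ S * (C * r) + C * r ^ 2 := by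
          have h3 : |σ y * t y| ≤ S * (C * r) := by
            rw [abs_mul]
            exact mul_le_mul (bσ y hy) (bt y hy) (abs_nonneg _) hS
          calc |Θ y - σ y ^ 2| = |σ y * t y + (Θ y - σ y ^ 2 - σ y * t y)| := by congr 1; ring
            _ ≤ _ := (abs_add_le _ _).trans (add_le_add h3 (bR y hy))
        exact mul_le_mul h1 h2 (abs_nonneg _) (by positivity))
    rw [Real.norm_eq_abs] at h
    refine h.trans (le_of_eq ?_)
    rw [hD]
    ring
  have hsq : m ^ 2 ≤ m0 ^ 2 + r ^ 2 * (D * (2 * β + D)) := by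
    have h1 : |(m - m0) * (2 * m0 + (m - m0))| ≤ (D * r) * (2 * (β * r) + D * r) := by
      rw [abs_mul]
      refine mul_le_mul hn ((abs_add_le _ _).trans (add_le_add ?_ hn)) (abs_nonneg _)
        (by positivity)
      rw [abs_mul, abs_two]
      linarith
    nlinarith [(abs_le.mp h1).2]
  set E1 := C ^ 2 / (2 * C1) + (a + β * r) * C + C1 / 2 * (a + β * r) ^ 2 * C + C1 * a * β * S * C
    + C1 / 2 * β ^ 2 * S * C * r with hE1
  have hmain : ∫ y in B, (((1 + C1 * q y) * σ y ^ 2 * d y + (q y + C1 / 2 * q y ^ 2) * σ y * t y)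
      - r ^ 2 * E1) ≤ ∫ y in B, ((q y + d y) * Θ y + C1 / 2 * ((q y + d y) ^ 2 * Θ y)
        - C1 / 2 * (q y ^ 2 * σ y ^ 2) + C1 / 2 * m0 ^ 2 * σ y ^ 2 - C1 * m0 * (d y * σ y ^ 2)
        - m0 * (σ y * t y) - q y * σ y ^ 2) := by
    refine setIntegral_mono_on (intB hB (by fun_prop)) (intB hB (by fun_prop)) hBm fun y hy => ?_
    have h := pointwise (m := m0) hC1 (bq y hy) (bd y hy) (bσ y hy) (bt y hy) (bR y hy)
    have e1 : r ^ 2 * E1 = (C * r) ^ 2 / (2 * C1) + (a + β * r) * (C * r ^ 2)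
        + C1 / 2 * (a + β * r) ^ 2 * (C * r ^ 2) + C1 * a * (β * r) * S * (C * r)
        + C1 / 2 * (β * r) ^ 2 * S * (C * r) := by
      rw [hE1]
      ring
    rw [e1]
    nlinarith [h]
  rw [integral_sub (intB hB (by fun_prop)) (intB hB (by fun_prop)),
    integral_sub (intB hB (by fun_prop)) (intB hB (by fun_prop)),
    integral_sub (intB hB (by fun_prop)) (intB hB (by fun_prop)),
    integral_sub (intB hB (by fun_prop)) (intB hB (by fun_prop)),
    integral_add (f := fun y => (q y + d y) * Θ y + C1 / 2 * ((q y + d y) ^ 2 * Θ y)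
        - C1 / 2 * (q y ^ 2 * σ y ^ 2)) (intB hB (by fun_prop)) (intB hB (by fun_prop)),
    integral_sub (intB hB (by fun_prop)) (intB hB (by fun_prop)),
    integral_add (f := fun y => (q y + d y) * Θ y) (intB hB (by fun_prop))
      (intB hB (by fun_prop))] at hmain
  simp only [integral_const_mul, setIntegral_const, smul_eq_mul] at hmain
  rw [i1, i2, i3, ← hm0, ← hm, ← hVdef] at hmain
  have e2 : r ^ 2 * errF V C β S C1 a r =
      V * (r ^ 2 * E1) + C1 / 2 * (r ^ 2 * (D * (2 * β + D))) := by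
    rw [errF, ← hE1, ← hD]
    ring
  rw [e2]
  nlinarith [mul_le_mul_of_nonneg_left hsq (by positivity : 0 ≤ C1 / 2)]

end Pool.Agent.MP_13e7a1_an.H19
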